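import Pool.Agent.L0h7.UL.Stm

/-! # Project UL, module FORM: the means of traces are continuous functions of the coefficients
and locally constant functions of the marked group -/

set_option autoImplicit false

open scoped ENNReal InnerProductSpace
open Filter Topology

noncomputable section

namespace Pool.Agent.L0h8.UL

open H61R3NG Pool.Agent.L0h7.UL

section star

variable {G : Type} [Group G]

theorem st_eq_sum (α : MonoidAlgebra ℂ G) :
    st α = α.coeff.sum fun x c => MonoidAlgebra.single x⁻¹ ((starRingEnd ℂ) c) := rfl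

theorem st_zero : st (0 : MonoidAlgebra ℂ G) = 0 := by
  rw [st_eq_sum]
  exact Finsupp.sum_zero_index

theorem st_add (α β : MonoidAlgebra ℂ G) : st (α + β) = st α + st β := by
  classical
  rw [st_eq_sum, st_eq_sum, st_eq_sum, MonoidAlgebra.coeff_add]
  apply Finsupp.sum_add_index'
  · intro x; rw [map_zero, MonoidAlgebra.single_zero]
  · intro x c d; rw [map_add, MonoidAlgebra.single_add]

theorem st_single (x : G) (c : ℂ) :
    st (MonoidAlgebra.single x c) = MonoidAlgebra.single x⁻¹ ((starRingEnd ℂ) c) := by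
  rw [st_eq_sum, MonoidAlgebra.coeff_single]
  exact Finsupp.sum_single_index (by rw [map_zero, MonoidAlgebra.single_zero])

theorem st_sum {ι : Type} (s : Finset ι) (f : ι → MonoidAlgebra ℂ G) :
    st (∑ i ∈ s, f i) = ∑ i ∈ s, st (f i) := by
  classical
  induction s using Finset.induction_on with
  | empty => rw [Finset.sum_empty, Finset.sum_empty, st_zero]
  | insert i s hi ih => rw [Finset.sum_insert hi, Finset.sum_insert hi, st_add, ih]

theorem st_el {n : ℕ} (t : Fin n → G) (a : Fin n → ℂ) :
    st (el t a) = el (fun i => (t i)⁻¹) (fun i => (starRingEnd ℂ) (a i)) := by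
  unfold el
  rw [st_sum]
  exact Finset.sum_congr rfl fun i _ => st_single _ _

theorem Dm_el {n : ℕ} (R : ℝ) (t : Fin n → G) (a : Fin n → ℂ) :
    Dm R (el t a) = 1 - ((1 / R : ℝ) : ℂ) •
      (el (fun i => (t i)⁻¹) (fun i => (starRingEnd ℂ) (a i)) * el t a) := by
  unfold Dm
  rw [st_el]

end star

section good

variable {n : ℕ}

/-- finite sums of fixed group elements with continuous coefficients -/
def Good (E : (Fin n → ℂ) → MonoidAlgebra ℂ (FreeGroup (Fin n))) : Prop :=
  ∃ (ι : Type) (s : Finset ι) (g : ι → FreeGroup (Fin n)) (c : ι → (Fin n → ℂ) → ℂ),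
    (∀ i, Continuous (c i)) ∧ ∀ a, E a = ∑ i ∈ s, MonoidAlgebra.single (g i) (c i a)

theorem good_one : Good (n := n) (fun _ => 1) := by
  refine ⟨Unit, {()}, fun _ => 1, fun _ _ => 1, fun _ => continuous_const, fun a => ?_⟩
  rw [Finset.sum_singleton]
  rfl

theorem good_zero : Good (n := n) (fun _ => 0) := by
  refine ⟨Unit, ∅, fun _ => 1, fun _ _ => 1, fun _ => continuous_const, fun a => ?_⟩
  rw [Finset.sum_empty]

theorem Good.add {E E' : (Fin n → ℂ) → MonoidAlgebra ℂ (FreeGroup (Fin n))} (h : Good E)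
    (h' : Good E') : Good (fun a => E a + E' a) := by
  obtain ⟨ι, s, g, c, hc, he⟩ := h
  obtain ⟨ι', s', g', c', hc', he'⟩ := h'
  refine ⟨ι ⊕ ι', s.disjSum s', Sum.elim g g', Sum.elim c c', ?_, fun a => ?_⟩
  · rintro (i | i)
    · exact hc i
    · exact hc' i
  · show E a + E' a = _
    rw [Finset.sum_disjSum, he, he']
    rfl

theorem Good.mul {E E' : (Fin n → ℂ) → MonoidAlgebra ℂ (FreeGroup (Fin n))} (h : Good E)
    (h' : Good E') : Good (fun a => E a * E' a) := by
  obtain ⟨ι, s, g, c, hc, he⟩ := h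
  obtain ⟨ι', s', g', c', hc', he'⟩ := h'
  refine ⟨ι × ι', s ×ˢ s', fun p => g p.1 * g' p.2, fun p a => c p.1 a * c' p.2 a,
    fun p => (hc p.1).mul (hc' p.2), fun a => ?_⟩
  show E a * E' a = _
  rw [he, he', Finset.sum_mul_sum, Finset.sum_product]
  refine Finset.sum_congr rfl fun i _ => Finset.sum_congr rfl fun j _ => ?_
  rw [MonoidAlgebra.single_mul_single]

theorem Good.smul {E : (Fin n → ℂ) → MonoidAlgebra ℂ (FreeGroup (Fin n))} (h : Good E)
    (z : ℂ) : Good (fun a => z • E a) := by
  obtain ⟨ι, s, g, c, hc, he⟩ := h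
  refine ⟨ι, s, g, fun i a => z * c i a, fun i => continuous_const.mul (hc i), fun a => ?_⟩
  show z • E a = _
  rw [he, Finset.smul_sum]
  refine Finset.sum_congr rfl fun i _ => ?_
  rw [MonoidAlgebra.smul_single, smul_eq_mul]

theorem Good.pow {E : (Fin n → ℂ) → MonoidAlgebra ℂ (FreeGroup (Fin n))} (h : Good E)
    (k : ℕ) : Good (fun a => E a ^ k) := by
  induction k with
  | zero => simpa using good_one
  | succ k ih =>
    have := ih.mul h
    simpa [pow_succ] using this

theorem Good.sum {E : ℕ → (Fin n → ℂ) → MonoidAlgebra ℂ (FreeGroup (Fin n))}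
    (h : ∀ j, Good (E j)) (N : ℕ) : Good (fun a => ∑ j ∈ Finset.range N, E j a) := by
  induction N with
  | zero => simpa using good_zero
  | succ N ih =>
    have := ih.add (h N)
    simpa [Finset.sum_range_succ] using this

theorem good_el (g : Fin n → FreeGroup (Fin n)) (c : Fin n → (Fin n → ℂ) → ℂ)
    (hc : ∀ i, Continuous (c i)) : Good (fun a => el g (fun i => c i a)) :=
  ⟨Fin n, Finset.univ, g, c, hc, fun _ => rfl⟩

theorem good_Dm (R : ℝ) : Good (fun a : Fin n → ℂ => Dm R (el FreeGroup.of a)) := by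
  have h1 : Good (fun a : Fin n → ℂ => el (fun i => (FreeGroup.of i)⁻¹)
      (fun i => (starRingEnd ℂ) (a i))) :=
    good_el _ _ fun i => Complex.continuous_conj.comp (continuous_apply i)
  have h2 : Good (fun a : Fin n → ℂ => el FreeGroup.of (fun i => a i)) :=
    good_el _ _ fun i => continuous_apply i
  have h3 := good_one.add ((h1.mul h2).smul (-((1 / R : ℝ) : ℂ)))
  have h4 : (fun a : Fin n → ℂ => Dm R (el FreeGroup.of a)) = fun a =>
      1 + (-((1 / R : ℝ) : ℂ)) • (el (fun i => (FreeGroup.of i)⁻¹)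
        (fun i => (starRingEnd ℂ) (a i)) * el FreeGroup.of (fun i => a i)) := by
    funext a
    rw [Dm_el, neg_smul, ← sub_eq_add_neg]
  rw [h4]
  exact h3

end good

section push

variable {G : Type} [Group G] {n : ℕ} (t : Fin n → G)

/-- the homomorphism of group algebras -/
def Ph : MonoidAlgebra ℂ (FreeGroup (Fin n)) →ₐ[ℂ] MonoidAlgebra ℂ G :=
  MonoidAlgebra.mapDomainAlgHom ℂ ℂ (FreeGroup.lift t)

theorem Ph_single (w : FreeGroup (Fin n)) (z : ℂ) :
    Ph t (MonoidAlgebra.single w z) = MonoidAlgebra.single (FreeGroup.lift t w) z := by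
  unfold Ph
  rw [MonoidAlgebra.mapDomainAlgHom_apply]
  exact MonoidAlgebra.mapDomain_single

theorem Ph_el (g : Fin n → FreeGroup (Fin n)) (a : Fin n → ℂ) :
    Ph t (el g a) = el (fun i => FreeGroup.lift t (g i)) a := by
  unfold el
  rw [map_sum]
  exact Finset.sum_congr rfl fun i _ => Ph_single t _ _

theorem Ph_Dm (R : ℝ) (a : Fin n → ℂ) : Ph t (Dm R (el FreeGroup.of a)) = Dm R (el t a) := by
  rw [Dm_el, Dm_el, map_sub, map_one, map_smul, map_mul, Ph_el, Ph_el]
  congr 3
  · congr 1
    funext i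
    rw [map_inv, FreeGroup.lift_apply_of]
  · congr 1
    funext i
    rw [FreeGroup.lift_apply_of]

end push

open Classical in
/-- **Module FORM.** -/
theorem t_FORM : S_FORM := by
  intro n R N
  obtain ⟨ι, s, g, c, hc, he⟩ := Good.sum (fun j => (good_Dm (n := n) R).pow (2 * j)) N
  refine ⟨s.image g, fun w a => (N : ℝ)⁻¹ * (∑ i ∈ s with g i = w, c i a).re, ?_, ?_⟩
  · intro w
    refine continuous_const.mul (Complex.continuous_re.comp ?_)
    exact continuous_finsetSum _ fun i _ => hc i
  · intro G _ t a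
    have h1 : ∑ j ∈ Finset.range N, (((Dm R (el t a)) ^ (2 * j)).coeff 1).re =
        ((Ph t (∑ j ∈ Finset.range N, Dm R (el FreeGroup.of a) ^ (2 * j))).coeff 1).re := by
      rw [map_sum, MonoidAlgebra.coeff_sum, Finsupp.finsetSum_apply, Complex.re_sum]
      refine Finset.sum_congr rfl fun j _ => ?_
      rw [map_pow, Ph_Dm]
    have h2 : (Ph t (∑ j ∈ Finset.range N, Dm R (el FreeGroup.of a) ^ (2 * j))).coeff 1 =
        ∑ w ∈ s.image g, if FreeGroup.lift t w = 1 then ∑ i ∈ s with g i = w, c i a else 0 := by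
      have h3 : ∑ j ∈ Finset.range N, Dm R (el FreeGroup.of a) ^ (2 * j) =
          ∑ i ∈ s, MonoidAlgebra.single (g i) (c i a) := he a
      rw [h3, map_sum, MonoidAlgebra.coeff_sum, Finsupp.finsetSum_apply]
      have h4 : ∀ i ∈ s, (Ph t (MonoidAlgebra.single (g i) (c i a))).coeff 1 =
          if FreeGroup.lift t (g i) = 1 then c i a else 0 := by
        intro i _
        rw [Ph_single, MonoidAlgebra.coeff_single_apply]
      rw [Finset.sum_congr rfl h4, ← Finset.sum_fiberwise_of_maps_to
        (g := g) (t := s.image g) (fun i hi => Finset.mem_image_of_mem g hi)]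
      refine Finset.sum_congr rfl fun w _ => ?_
      by_cases hw : FreeGroup.lift t w = 1
      · rw [if_pos hw]
        refine Finset.sum_congr rfl fun i hi => ?_
        rw [(Finset.mem_filter.1 hi).2, if_pos hw]
      · rw [if_neg hw]
        refine Finset.sum_eq_zero fun i hi => ?_
        rw [(Finset.mem_filter.1 hi).2, if_neg hw]
    unfold sg
    rw [h1, h2, Complex.re_sum, Finset.mul_sum]
    refine Finset.sum_congr rfl fun w _ => ?_
    by_cases hw : FreeGroup.lift t w = 1
    · rw [if_pos hw, if_pos hw]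
    · rw [if_neg hw, if_neg hw, Complex.zero_re, mul_zero]

end Pool.Agent.L0h8.UL
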