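import Pool.Agent.L0h7.UL.Stm

/-! # Project UL, module SIG: kernel dimensions as limits of means of traces -/

set_option autoImplicit false

open scoped ENNReal InnerProductSpace
open Filter Topology

noncomputable section

namespace Pool.Agent.L0h8.UL

open H61R3NG Pool.Agent.L0h7.UL

variable {G : Type} [Group G]

theorem top_eq (α : MonoidAlgebra ℂ G) :
    Top G α = ∑ x ∈ α.coeff.support, α.coeff x • Lhom G x := by
  unfold H61R3NG.Top
  rw [MonoidAlgebra.lift_apply, Finsupp.sum]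

theorem top_single (x : G) (c : ℂ) : Top G (MonoidAlgebra.single x c) = c • Lhom G x := by
  unfold H61R3NG.Top
  rw [MonoidAlgebra.lift_single]

theorem top_st (α : MonoidAlgebra ℂ G) :
    Top G (st α) = ContinuousLinearMap.adjoint (Top G α) := by
  unfold st
  rw [map_sum, top_eq α, map_sum]
  refine Finset.sum_congr rfl fun x _ => ?_
  rw [top_single, ContinuousLinearMap.adjoint.map_smulₛₗ, adj_L]

theorem norm_top (α : MonoidAlgebra ℂ G) : ‖Top G α‖ ≤ nm α := by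
  rw [top_eq]
  refine (norm_sum_le _ _).trans ?_
  unfold nm
  refine Finset.sum_le_sum fun x _ => ?_
  rw [norm_smul]
  exact mul_le_of_le_one_right (norm_nonneg _) (norm_L x)

/-- the operator `1 - c T* T` -/
def Dop (c : ℝ) (T : E2 G →L[ℂ] E2 G) : E2 G →L[ℂ] E2 G :=
  1 - (c : ℂ) • (ContinuousLinearMap.adjoint T * T)

theorem top_Dm (R : ℝ) (α : MonoidAlgebra ℂ G) : Top G (Dm R α) = Dop (1 / R) (Top G α) := by
  unfold Dm Dop
  rw [map_sub, map_one, map_smul, map_mul, top_st]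

theorem trc_top (e : MonoidAlgebra ℂ G) : trc (Top G e) = e.coeff 1 := by
  unfold trc
  rw [inner_dl_left, Top_dl]

section D

variable {c : ℝ} {T : E2 G →L[ℂ] E2 G}

omit [Group G] in
theorem D_apply (x : E2 G) : Dop c T x = x - (c : ℂ) • (ContinuousLinearMap.adjoint T * T) x := rfl

theorem D_sa (x y : E2 G) : ⟪Dop c T x, y⟫_ℂ = ⟪x, Dop c T y⟫_ℂ := by
  have h1 : (ContinuousLinearMap.adjoint T * T) x = ContinuousLinearMap.adjoint T (T x) := rfl
  have h2 : (ContinuousLinearMap.adjoint T * T) y = ContinuousLinearMap.adjoint T (T y) := rfl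
  rw [D_apply, D_apply, inner_sub_left, inner_sub_right, inner_smul_left, inner_smul_right, h1, h2,
    ContinuousLinearMap.adjoint_inner_left, ContinuousLinearMap.adjoint_inner_right,
    Complex.conj_ofReal]

theorem D_pos (hc : 0 ≤ c) (hc2 : c * ‖T‖ ^ 2 ≤ 1) (x : E2 G) : 0 ≤ (⟪Dop c T x, x⟫_ℂ).re := by
  have h1 : (ContinuousLinearMap.adjoint T * T) x = ContinuousLinearMap.adjoint T (T x) := rfl
  have h2 : ⟪Dop c T x, x⟫_ℂ = ((‖x‖ ^ 2 - c * ‖T x‖ ^ 2 : ℝ) : ℂ) := by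
    rw [D_apply, inner_sub_left, inner_smul_left, h1, ContinuousLinearMap.adjoint_inner_left,
      Complex.conj_ofReal, inner_self_eq_norm_sq_to_K, inner_self_eq_norm_sq_to_K]
    push_cast
    rfl
  rw [h2, Complex.ofReal_re]
  have h3 : ‖T x‖ ≤ ‖T‖ * ‖x‖ := T.le_opNorm x
  have h4 : ‖T x‖ ^ 2 ≤ ‖T‖ ^ 2 * ‖x‖ ^ 2 := by
    rw [← mul_pow]
    exact pow_le_pow_left₀ (norm_nonneg _) h3 2
  have h5 : c * ‖T x‖ ^ 2 ≤ c * (‖T‖ ^ 2 * ‖x‖ ^ 2) := mul_le_mul_of_nonneg_left h4 hc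
  have h6 : c * (‖T‖ ^ 2 * ‖x‖ ^ 2) = (c * ‖T‖ ^ 2) * ‖x‖ ^ 2 := by ring
  have h7 : (c * ‖T‖ ^ 2) * ‖x‖ ^ 2 ≤ 1 * ‖x‖ ^ 2 :=
    mul_le_mul_of_nonneg_right hc2 (sq_nonneg _)
  linarith

theorem D_fix1 {x : E2 G} (hx : T x = 0) : Dop c T x = x := by
  have h1 : (ContinuousLinearMap.adjoint T * T) x = 0 := (ker_adj_mul T x).2 hx
  rw [D_apply, h1, smul_zero, sub_zero]

theorem D_fix2 (hc : 0 < c) {x : E2 G} (hx : Dop c T x = x) : T x = 0 := by
  rw [D_apply, sub_eq_self, smul_eq_zero] at hx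
  have hcc : (c : ℂ) ≠ 0 := by exact_mod_cast hc.ne'
  exact (ker_adj_mul T x).1 (hx.resolve_left hcc)

theorem D_sq_fix (hc : 0 < c) (hc2 : c * ‖T‖ ^ 2 ≤ 1) (x : E2 G) :
    x ∈ LinearMap.ker (T : E2 G →ₗ[ℂ] E2 G) ↔ (Dop c T ^ 2) x = x := by
  have h2 : (Dop c T ^ 2) x = Dop c T (Dop c T x) := by
    rw [pow_two]; rfl
  rw [h2, LinearMap.mem_ker]
  constructor
  · intro h
    have h' : T x = 0 := h
    rw [D_fix1 h', D_fix1 h']
  · intro h
    have hy : Dop c T (x - Dop c T x) = -(x - Dop c T x) := by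
      rw [map_sub, h]
      abel
    have h3 := D_pos hc.le hc2 (x - Dop c T x)
    rw [hy, inner_neg_left, inner_self_eq_norm_sq_to_K] at h3
    have h4 : (-((‖x - Dop c T x‖ : ℂ)) ^ 2).re = -‖x - Dop c T x‖ ^ 2 := by
      norm_cast
    have h5 : (-((RCLike.ofReal ‖x - Dop c T x‖ : ℂ)) ^ 2).re = -‖x - Dop c T x‖ ^ 2 := h4
    rw [h5] at h3
    have h6 : ‖x - Dop c T x‖ = 0 := by
      have := sq_nonneg ‖x - Dop c T x‖
      exact (pow_eq_zero_iff (n := 2) (by norm_num)).1 (le_antisymm (by linarith) this)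
    have h7 : Dop c T x = x := by
      rw [norm_eq_zero, sub_eq_zero] at h6
      exact h6.symm
    exact D_fix2 hc h7

theorem D_pow_sa (j : ℕ) : ∀ x y : E2 G, ⟪(Dop c T ^ j) x, y⟫_ℂ = ⟪x, (Dop c T ^ j) y⟫_ℂ := by
  induction j with
  | zero => intro x y; rfl
  | succ j ih =>
    intro x y
    have h1 : (Dop c T ^ (j + 1)) x = (Dop c T ^ j) (Dop c T x) := by rw [pow_succ]; rfl
    have h2 : (Dop c T ^ (j + 1)) y = Dop c T ((Dop c T ^ j) y) := by rw [pow_succ']; rfl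
    rw [h1, h2, ih, D_sa]

theorem D_pow_fix (j : ℕ) {x : E2 G} (hx : T x = 0) : (Dop c T ^ j) x = x := by
  induction j with
  | zero => rfl
  | succ j ih =>
    have h1 : (Dop c T ^ (j + 1)) x = (Dop c T ^ j) (Dop c T x) := by rw [pow_succ]; rfl
    rw [h1, D_fix1 hx, ih]

theorem lower (j : ℕ) :
    kd (LinearMap.ker (T : E2 G →ₗ[ℂ] E2 G)) ≤ (trc (Dop c T ^ (2 * j))).re := by
  set V := LinearMap.ker (T : E2 G →ₗ[ℂ] E2 G) with hV
  have h1 : trc (Dop c T ^ (2 * j)) = ((‖(Dop c T ^ j) (dl (1 : G))‖ ^ 2 : ℝ) : ℂ) := by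
    unfold trc
    have h2 : (Dop c T ^ (2 * j)) (dl (1 : G)) = (Dop c T ^ j) ((Dop c T ^ j) (dl 1)) := by
      rw [two_mul, pow_add]; rfl
    rw [h2, ← D_pow_sa, inner_self_eq_norm_sq_to_K]
    push_cast
    rfl
  rw [h1, Complex.ofReal_re]
  have h3 : V.starProjection ((Dop c T ^ j) (dl (1 : G))) = V.starProjection (dl 1) := by
    rw [← sub_eq_zero, ← map_sub, Submodule.starProjection_apply_eq_zero_iff,
      Submodule.mem_orthogonal]
    intro v hv
    have hv' : T v = 0 := hv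
    rw [inner_sub_right, ← D_pow_sa, D_pow_fix j hv', sub_self]
  unfold kd xi
  rw [← h3]
  exact pow_le_pow_left₀ (norm_nonneg _) (Submodule.norm_starProjection_apply_le _ _) 2

end D

/-- **Module SIG.** -/
theorem t_SIG : S_SIG := by
  intro G _ α R hR hn
  set T := Top G α with hT
  have hc : 0 < 1 / R := by positivity
  have hTn : ‖T‖ ^ 2 ≤ R := (pow_le_pow_left₀ (norm_nonneg _) (norm_top α) 2).trans hn
  have hc2 : 1 / R * ‖T‖ ^ 2 ≤ 1 := by
    rw [one_div, inv_mul_le_iff₀ hR]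
    linarith
  have hterm : ∀ j : ℕ, ((Dm R α) ^ (2 * j)).coeff 1 = trc (Dop (1 / R) T ^ (2 * j)) := by
    intro j
    rw [← trc_top, map_pow, top_Dm]
  have hsg : ∀ N : ℕ, sg R N α =
      (N : ℝ)⁻¹ * ∑ j ∈ Finset.range N, (trc (Dop (1 / R) T ^ (2 * j))).re := by
    intro N
    unfold sg
    congr 1
    exact Finset.sum_congr rfl fun j _ => by rw [hterm]
  refine ⟨fun N hN => ?_, ?_⟩
  · rw [hsg]
    have hN' : (0 : ℝ) < N := by exact_mod_cast hN
    rw [inv_mul_eq_div, le_div_iff₀ hN']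
    have h1 : ∑ _j ∈ Finset.range N, kdim α ≤
        ∑ j ∈ Finset.range N, (trc (Dop (1 / R) T ^ (2 * j))).re :=
      Finset.sum_le_sum fun j _ => lower (c := 1 / R) (T := T) j
    rw [Finset.sum_const, Finset.card_range, nsmul_eq_mul, mul_comm] at h1
    exact h1
  · have hnorm : ‖Dop (1 / R) T‖ ≤ 1 := contr T (1 / R) hc.le hc2
    have hnorm2 : ‖Dop (1 / R) T ^ 2‖ ≤ 1 := by
      rw [pow_two]
      exact (norm_mul_le _ _).trans (mul_le_one₀ hnorm (norm_nonneg _) hnorm)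
    have h := erg (Dop (1 / R) T ^ 2) hnorm2 (LinearMap.ker (T : E2 G →ₗ[ℂ] E2 G))
      (fun x => D_sq_fix hc hc2 x)
    have h2 := (Complex.continuous_re.tendsto _).comp h
    have h3 : Tendsto (fun N : ℕ => sg R N α) atTop
        (𝓝 ((kd (LinearMap.ker (T : E2 G →ₗ[ℂ] E2 G)) : ℝ) : ℂ).re) := by
      refine h2.congr fun N => ?_
      show ((N : ℂ)⁻¹ * ∑ n ∈ Finset.range N, trc ((Dop (1 / R) T ^ 2) ^ n)).re = _
      have e1 : (N : ℂ)⁻¹ = (((N : ℝ)⁻¹ : ℝ) : ℂ) := by push_cast; rfl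
      rw [hsg, e1, Complex.re_ofReal_mul, Complex.re_sum]
      congr 1
      refine Finset.sum_congr rfl fun n _ => ?_
      rw [← pow_mul]
    rw [Complex.ofReal_re] at h3
    exact h3

end Pool.Agent.L0h8.UL
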